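import Pool.Agent.Lib.MP_fa837f_gt.TS.Iface

/-!
# DIFF (helper17): differentiation under the integral sign, twice
-/

set_option autoImplicit false

namespace Pool.Agent.Lib.MP_fa837f_gt.TS.H17

open MeasureTheory Set Filter Topology

theorem diff_EE_cont (J₁ J₂ : Jet) : Continuous fun z : ℝ × ℝ => EE J₁ J₂ z.1 z.2 :=
  Real.continuous_exp.comp ((J₁.cf.add J₂.cf).sub continuous_snd)

theorem diff_slice {g : ℝ → ℝ → ℝ} (hg : Continuous fun z : ℝ × ℝ => g z.1 z.2) (θ : ℝ) :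
    Continuous (g θ) :=
  hg.comp (Continuous.prodMk_right θ)

theorem diff_F0_cont (J₁ J₂ : Jet) : Continuous fun z : ℝ × ℝ => F0 J₁ J₂ z.1 z.2 :=
  (diff_EE_cont J₁ J₂).mul (J₁.cp.mul J₂.cp)

theorem diff_F1_cont (J₁ J₂ : Jet) : Continuous fun z : ℝ × ℝ => F1 J₁ J₂ z.1 z.2 :=
  (diff_EE_cont J₁ J₂).mul ((((J₁.cp.mul J₂.cp).mul (J₁.ca.add J₂.ca)).add
    (J₁.cm.mul J₂.cp)).add (J₁.cp.mul J₂.cm))

theorem diff_F2_cont (J₁ J₂ : Jet) : Continuous fun z : ℝ × ℝ => F2 J₁ J₂ z.1 z.2 := by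
  refine (diff_EE_cont J₁ J₂).mul ?_
  refine ((((Continuous.add ?_ ?_).add ?_).add ?_).add ?_).add ?_
  · exact (J₁.cp.mul J₂.cp).mul ((J₁.ca.add J₂.ca).pow 2)
  · exact (continuous_const.mul (J₁.ca.add J₂.ca)).mul ((J₁.cm.mul J₂.cp).add (J₁.cp.mul J₂.cm))
  · exact (J₁.cp.mul J₂.cp).mul (J₁.ck.add J₂.ck)
  · exact J₁.cc.mul J₂.cp
  · exact continuous_const.mul (J₁.cm.mul J₂.cm)
  · exact J₁.cp.mul J₂.cc

theorem diff_EE_deriv (J₁ J₂ : Jet) (θ ρ : ℝ) :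
    HasDerivAt (fun x => EE J₁ J₂ x ρ) (EE J₁ J₂ θ ρ * (J₁.a θ ρ + J₂.a θ ρ)) θ := by
  have h1 := (((J₁.hfa θ ρ).fun_add (J₂.hfa θ ρ)).sub_const ρ).exp
  exact h1

theorem diff_F0_deriv (J₁ J₂ : Jet) (θ ρ : ℝ) :
    HasDerivAt (fun x => F0 J₁ J₂ x ρ) (F1 J₁ J₂ θ ρ) θ := by
  have h1 := (diff_EE_deriv J₁ J₂ θ ρ).fun_mul ((J₁.hpm θ ρ).fun_mul (J₂.hpm θ ρ))
  refine (h1.congr_deriv ?_)
  unfold F1
  ring

theorem diff_F1_deriv (J₁ J₂ : Jet) (θ ρ : ℝ) :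
    HasDerivAt (fun x => F1 J₁ J₂ x ρ) (F2 J₁ J₂ θ ρ) θ := by
  have h1 := (diff_EE_deriv J₁ J₂ θ ρ).fun_mul
    (((((J₁.hpm θ ρ).fun_mul (J₂.hpm θ ρ)).fun_mul ((J₁.hak θ ρ).fun_add (J₂.hak θ ρ))).fun_add
      ((J₁.hmc θ ρ).fun_mul (J₂.hpm θ ρ))).fun_add ((J₁.hpm θ ρ).fun_mul (J₂.hmc θ ρ)))
  refine (h1.congr_deriv ?_)
  unfold F2
  ring

/-- `EE` changes slowly with the first variable -/
theorem diff_EE_le (J₁ J₂ : Jet) {K : ℝ} (hK0 : 0 ≤ K) (h₁ : ∀ θ ρ, |J₁.a θ ρ| ≤ K)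
    (h₂ : ∀ θ ρ, |J₂.a θ ρ| ≤ K) (θ x ρ : ℝ) (hx : x ∈ Metric.ball θ 1) :
    EE J₁ J₂ x ρ ≤ Real.exp (2 * K) * EE J₁ J₂ θ ρ := by
  have h3 : |(J₁.f x ρ + J₂.f x ρ) - (J₁.f θ ρ + J₂.f θ ρ)| ≤ 2 * K * |x - θ| := by
    have h4 := Convex.norm_image_sub_le_of_norm_hasDerivWithin_le
      (f := fun y => J₁.f y ρ + J₂.f y ρ) (f' := fun y => J₁.a y ρ + J₂.a y ρ)
      (s := Set.univ) (C := 2 * K) (x := θ) (y := x)
      (fun y _ => ((J₁.hfa y ρ).fun_add (J₂.hfa y ρ)).hasDerivWithinAt)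
      (fun y _ => by
        rw [Real.norm_eq_abs]
        have h5 := abs_add_le (J₁.a y ρ) (J₂.a y ρ)
        have h6 := h₁ y ρ
        have h7 := h₂ y ρ
        linarith)
      convex_univ (mem_univ _) (mem_univ _)
    simpa [Real.norm_eq_abs] using h4
  have h5 : |x - θ| < 1 := by
    rw [Metric.mem_ball, Real.dist_eq] at hx
    exact hx
  unfold EE
  rw [← Real.exp_add]
  refine Real.exp_le_exp.mpr ?_
  have h6 := (abs_le.mp h3).2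
  have h7 : 2 * K * |x - θ| ≤ 2 * K * 1 := mul_le_mul_of_nonneg_left h5.le (by linarith)
  linarith

theorem diff_EE_int (hE : ExpiStatement) (J₁ J₂ : Jet)
    (hc : ∀ θ, Coer fun ρ => J₁.f θ ρ + J₂.f θ ρ - ρ) (θ : ℝ) :
    Integrable (EE J₁ J₂ θ) := by
  have hd : ∀ ρ, HasDerivAt (fun ρ => J₁.f θ ρ + J₂.f θ ρ - ρ) (J₁.p θ ρ + J₂.p θ ρ - 1) ρ :=
    fun ρ => ((J₁.hfp θ ρ).fun_add (J₂.hfp θ ρ)).fun_sub (hasDerivAt_id' ρ)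
  have hd2 : ∀ ρ, HasDerivAt (fun ρ => J₁.p θ ρ + J₂.p θ ρ - 1)
      (-(J₁.P θ ρ) + -(J₂.P θ ρ)) ρ :=
    fun ρ => ((J₁.hpP θ ρ).fun_add (J₂.hpP θ ρ)).sub_const 1
  have hanti : Antitone (fun ρ => J₁.p θ ρ + J₂.p θ ρ - 1) := by
    refine antitone_of_deriv_nonpos (fun ρ => (hd2 ρ).differentiableAt) fun ρ => ?_
    rw [(hd2 ρ).deriv]
    have h1 := J₁.hP θ ρ
    have h2 := J₂.hP θ ρ
    linarith
  have hconc : ConcaveOn ℝ Set.univ (fun ρ => J₁.f θ ρ + J₂.f θ ρ - ρ) := by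
    refine Antitone.concaveOn_univ_of_deriv (fun ρ => (hd ρ).differentiableAt) ?_
    have h3 : deriv (fun ρ => J₁.f θ ρ + J₂.f θ ρ - ρ) = fun ρ => J₁.p θ ρ + J₂.p θ ρ - 1 :=
      funext fun ρ => (hd ρ).deriv
    rw [h3]
    exact hanti
  exact (hE _ hconc (hc θ)).1

theorem diff_aux_abs {x K : ℝ} (h : |x| ≤ K) : -K ≤ x ∧ x ≤ K := abs_le.mp h

theorem diff (hE : ExpiStatement) : DiffStatement := by
  intro J₁ J₂ hp₁ hp₂ hc θ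
  obtain ⟨K₁, hK₁⟩ := J₁.bdd
  obtain ⟨K₂, hK₂⟩ := J₂.bdd
  set K : ℝ := max K₁ K₂ with hKdef
  have hA1 : ∀ θ ρ, |J₁.a θ ρ| ≤ K := fun θ ρ => (hK₁ θ ρ).1.trans (le_max_left _ _)
  have hA2 : ∀ θ ρ, |J₂.a θ ρ| ≤ K := fun θ ρ => (hK₂ θ ρ).1.trans (le_max_right _ _)
  have hM1 : ∀ θ ρ, |J₁.m θ ρ| ≤ K := fun θ ρ => (hK₁ θ ρ).2.2.1.trans (le_max_left _ _)
  have hM2 : ∀ θ ρ, |J₂.m θ ρ| ≤ K := fun θ ρ => (hK₂ θ ρ).2.2.1.trans (le_max_right _ _)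
  have hk1 : ∀ θ ρ, |J₁.k θ ρ| ≤ K := fun θ ρ => (hK₁ θ ρ).2.2.2.1.trans (le_max_left _ _)
  have hk2 : ∀ θ ρ, |J₂.k θ ρ| ≤ K := fun θ ρ => (hK₂ θ ρ).2.2.2.1.trans (le_max_right _ _)
  have hc1 : ∀ θ ρ, |J₁.c θ ρ| ≤ K := fun θ ρ => (hK₁ θ ρ).2.2.2.2.trans (le_max_left _ _)
  have hc2 : ∀ θ ρ, |J₂.c θ ρ| ≤ K := fun θ ρ => (hK₂ θ ρ).2.2.2.2.trans (le_max_right _ _)
  have hP1 : ∀ θ ρ, |J₁.p θ ρ| ≤ 1 := fun θ ρ => abs_le.mpr ⟨by linarith [(hp₁ θ ρ).1], (hp₁ θ ρ).2⟩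
  have hP2 : ∀ θ ρ, |J₂.p θ ρ| ≤ 1 := fun θ ρ => abs_le.mpr ⟨by linarith [(hp₂ θ ρ).1], (hp₂ θ ρ).2⟩
  have hK0 : 0 ≤ K := (abs_nonneg _).trans (hA1 0 0)
  have hEpos : ∀ x ρ, 0 < EE J₁ J₂ x ρ := fun x ρ => Real.exp_pos _
  have mulb : ∀ {x y A B : ℝ}, |x| ≤ A → |y| ≤ B → |x * y| ≤ A * B := by
    intro x y A B hx hy
    rw [abs_mul]
    exact mul_le_mul hx hy (abs_nonneg _) ((abs_nonneg _).trans hx)
  have addb : ∀ {x y A B : ℝ}, |x| ≤ A → |y| ≤ B → |x + y| ≤ A + B := by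
    intro x y A B hx hy
    exact (abs_add_le x y).trans (add_le_add hx hy)
  -- bounds
  have hF1 : ∀ x ρ, |F1 J₁ J₂ x ρ| ≤ (1 * 1 * (K + K) + K * 1 + 1 * K) * EE J₁ J₂ x ρ := by
    intro x ρ
    unfold F1
    rw [abs_mul, abs_of_pos (hEpos x ρ), mul_comm]
    refine mul_le_mul_of_nonneg_right ?_ (hEpos x ρ).le
    exact addb (addb (mulb (mulb (hP1 x ρ) (hP2 x ρ)) (addb (hA1 x ρ) (hA2 x ρ)))
      (mulb (hM1 x ρ) (hP2 x ρ))) (mulb (hP1 x ρ) (hM2 x ρ))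
  have hF2 : ∀ x ρ, |F2 J₁ J₂ x ρ| ≤ (1 * 1 * ((K + K) * (K + K)) +
      2 * (K + K) * (K * 1 + 1 * K) + 1 * 1 * (K + K) + K * 1 + 2 * (K * K) + 1 * K) *
      EE J₁ J₂ x ρ := by
    intro x ρ
    unfold F2
    rw [abs_mul, abs_of_pos (hEpos x ρ), mul_comm]
    refine mul_le_mul_of_nonneg_right ?_ (hEpos x ρ).le
    have h2 : |(2 : ℝ)| ≤ 2 := by rw [abs_of_pos (by norm_num)]
    have hs : |(J₁.a x ρ + J₂.a x ρ) ^ 2| ≤ (K + K) * (K + K) := by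
      rw [sq]
      exact mulb (addb (hA1 x ρ) (hA2 x ρ)) (addb (hA1 x ρ) (hA2 x ρ))
    exact addb (addb (addb (addb (addb (mulb (mulb (hP1 x ρ) (hP2 x ρ)) hs)
      (mulb (mulb h2 (addb (hA1 x ρ) (hA2 x ρ)))
        (addb (mulb (hM1 x ρ) (hP2 x ρ)) (mulb (hP1 x ρ) (hM2 x ρ)))))
      (mulb (mulb (hP1 x ρ) (hP2 x ρ)) (addb (hk1 x ρ) (hk2 x ρ))))
      (mulb (hc1 x ρ) (hP2 x ρ))) (mulb h2 (mulb (hM1 x ρ) (hM2 x ρ))))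
      (mulb (hP1 x ρ) (hc2 x ρ))
  have hF0 : ∀ x ρ, |F0 J₁ J₂ x ρ| ≤ EE J₁ J₂ x ρ := by
    intro x ρ
    unfold F0
    rw [abs_mul, abs_of_pos (hEpos x ρ)]
    have h1 := mulb (hP1 x ρ) (hP2 x ρ)
    have h2 := (hEpos x ρ).le
    nlinarith
  set C₁ : ℝ := 1 * 1 * (K + K) + K * 1 + 1 * K with hC₁
  set C₂ : ℝ := 1 * 1 * ((K + K) * (K + K)) +
      2 * (K + K) * (K * 1 + 1 * K) + 1 * 1 * (K + K) + K * 1 + 2 * (K * K) + 1 * K with hC₂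
  have hC₁0 : 0 ≤ C₁ := by positivity
  have hC₂0 : 0 ≤ C₂ := by positivity
  have hI : ∀ x, Integrable (EE J₁ J₂ x) := diff_EE_int hE J₁ J₂ hc
  have hI0 : Integrable (F0 J₁ J₂ θ) := by
    refine (hI θ).mono' (diff_slice (diff_F0_cont J₁ J₂) θ).aestronglyMeasurable ?_
    exact Eventually.of_forall fun ρ => by
      rw [Real.norm_eq_abs]
      exact hF0 θ ρ
  have hI1 : Integrable (F1 J₁ J₂ θ) := by
    refine ((hI θ).const_mul C₁).mono' (diff_slice (diff_F1_cont J₁ J₂) θ).aestronglyMeasurable ?_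
    exact Eventually.of_forall fun ρ => by
      rw [Real.norm_eq_abs]
      exact hF1 θ ρ
  have hball : Metric.ball θ 1 ∈ 𝓝 θ := Metric.ball_mem_nhds θ one_pos
  have hD1 := hasDerivAt_integral_of_dominated_loc_of_deriv_le (μ := volume)
    (F := fun x ρ => F0 J₁ J₂ x ρ) (F' := fun x ρ => F1 J₁ J₂ x ρ) (x₀ := θ)
    (bound := fun ρ => C₁ * (Real.exp (2 * K) * EE J₁ J₂ θ ρ)) hball
    (Eventually.of_forall fun x => (diff_slice (diff_F0_cont J₁ J₂) x).aestronglyMeasurable)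
    hI0 (diff_slice (diff_F1_cont J₁ J₂) θ).aestronglyMeasurable
    (Eventually.of_forall fun ρ x hx => by
      rw [Real.norm_eq_abs]
      exact (hF1 x ρ).trans (mul_le_mul_of_nonneg_left
        (diff_EE_le J₁ J₂ hK0 hA1 hA2 θ x ρ hx) hC₁0))
    (((hI θ).const_mul _).const_mul _)
    (Eventually.of_forall fun ρ x _ => diff_F0_deriv J₁ J₂ x ρ)
  have hD2 := hasDerivAt_integral_of_dominated_loc_of_deriv_le (μ := volume)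
    (F := fun x ρ => F1 J₁ J₂ x ρ) (F' := fun x ρ => F2 J₁ J₂ x ρ) (x₀ := θ)
    (bound := fun ρ => C₂ * (Real.exp (2 * K) * EE J₁ J₂ θ ρ)) hball
    (Eventually.of_forall fun x => (diff_slice (diff_F1_cont J₁ J₂) x).aestronglyMeasurable)
    hI1 (diff_slice (diff_F2_cont J₁ J₂) θ).aestronglyMeasurable
    (Eventually.of_forall fun ρ x hx => by
      rw [Real.norm_eq_abs]
      exact (hF2 x ρ).trans (mul_le_mul_of_nonneg_left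
        (diff_EE_le J₁ J₂ hK0 hA1 hA2 θ x ρ hx) hC₂0))
    (((hI θ).const_mul _).const_mul _)
    (Eventually.of_forall fun ρ x _ => diff_F1_deriv J₁ J₂ x ρ)
  exact ⟨hI0, hI1, hD2.1, hD1.2, hD2.2⟩

end Pool.Agent.Lib.MP_fa837f_gt.TS.H17
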