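import Pool.Agent.Lib.MP_fa837f_gt.TS.Iface

/-!
# EXPI (helper17): exponentials of coercive concave functions
-/

set_option autoImplicit false

namespace Pool.Agent.Lib.MP_fa837f_gt.TS.H17

open MeasureTheory Set Filter Topology

/-- a concave function that tends to `-∞` at `-∞` has positive slope far to the left -/
theorem expi_left {χ : ℝ → ℝ} (hχ : ConcaveOn ℝ Set.univ χ) (hb : Tendsto χ atBot atBot) :
    ∃ x₀ s : ℝ, x₀ < 0 ∧ 0 < s ∧ ∀ y ρ, y ≤ ρ → ρ ≤ x₀ → χ y ≤ χ ρ - s * (ρ - y) := by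
  have h1 : ∀ᶠ x in atBot, χ x < χ 0 := hb.eventually (eventually_lt_atBot (χ 0))
  have h2 : ∀ᶠ x : ℝ in atBot, x < 0 := eventually_lt_atBot 0
  obtain ⟨x₀, hx1, hx2⟩ := (h1.and h2).exists
  refine ⟨x₀, (χ 0 - χ x₀) / (0 - x₀), hx2, div_pos (by linarith) (by linarith), ?_⟩
  intro y ρ hyρ hρ
  rcases eq_or_lt_of_le hyρ with h | h
  · rw [h]
    simp
  have h3 : (χ 0 - χ x₀) / (0 - x₀) ≤ (χ ρ - χ y) / (ρ - y) := by
    rcases eq_or_lt_of_le hρ with h4 | h4
    · rw [h4] at h ⊢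
      exact hχ.slope_anti_adjacent (mem_univ y) (mem_univ 0) h hx2
    · have h5 := hχ.slope_anti_adjacent (mem_univ y) (mem_univ x₀) h h4
      have h6 := hχ.slope_anti_adjacent (mem_univ ρ) (mem_univ 0) h4 hx2
      exact h6.trans h5
  rw [le_div_iff₀ (by linarith)] at h3
  linarith

theorem expi_left_int {χ : ℝ → ℝ} (hχ : ConcaveOn ℝ Set.univ χ) (hc : Continuous χ)
    (hb : Tendsto χ atBot atBot) :
    ∃ x₀ s : ℝ, x₀ < 0 ∧ 0 < s ∧ ∀ ρ, ρ ≤ x₀ →
      IntegrableOn (fun x => Real.exp (χ x)) (Iic ρ) ∧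
        ∫ x in Iic ρ, Real.exp (χ x) ≤ 1 / s * Real.exp (χ ρ) := by
  obtain ⟨x₀, s, hx₀, hs, hmain⟩ := expi_left hχ hb
  refine ⟨x₀, s, hx₀, hs, fun ρ hρ => ?_⟩
  have h1 : IntegrableOn (fun x => Real.exp (χ ρ - s * ρ) * Real.exp (s * x)) (Iic ρ) :=
    (integrableOn_exp_mul_Iic hs ρ).const_mul _
  have h2 : ∀ x ∈ Iic ρ, Real.exp (χ x) ≤ Real.exp (χ ρ - s * ρ) * Real.exp (s * x) := by
    intro x hx
    rw [← Real.exp_add]
    refine Real.exp_le_exp.mpr ?_
    have := hmain x ρ hx hρ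
    linarith
  have h3 : IntegrableOn (fun x => Real.exp (χ x)) (Iic ρ) := by
    refine h1.mono' (Real.continuous_exp.comp hc).aestronglyMeasurable ?_
    filter_upwards [ae_restrict_mem measurableSet_Iic] with x hx
    rw [Real.norm_eq_abs, abs_of_pos (Real.exp_pos _)]
    exact h2 x hx
  refine ⟨h3, ?_⟩
  calc ∫ x in Iic ρ, Real.exp (χ x)
      ≤ ∫ x in Iic ρ, Real.exp (χ ρ - s * ρ) * Real.exp (s * x) :=
        setIntegral_mono_on h3 h1 measurableSet_Iic h2
    _ = Real.exp (χ ρ - s * ρ) * (Real.exp (s * ρ) / s) := by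
        rw [integral_const_mul, integral_exp_mul_Iic hs]
    _ = 1 / s * Real.exp (χ ρ) := by
        rw [mul_div_assoc', ← Real.exp_add]
        have : χ ρ - s * ρ + s * ρ = χ ρ := by ring
        rw [this]
        ring

theorem expi : ExpiStatement := by
  intro χ hχ hcoer
  obtain ⟨hbot, htop⟩ := hcoer
  have hc : Continuous χ := by
    have h1 := hχ.continuousOn isOpen_univ
    rwa [continuousOn_univ] at h1
  have hce : Continuous fun x => Real.exp (χ x) := Real.continuous_exp.comp hc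
  -- the reflected function
  have hχ' : ConcaveOn ℝ Set.univ (fun x => χ (-x)) := by
    have h1 := hχ.comp_linearMap (-LinearMap.id : ℝ →ₗ[ℝ] ℝ)
    simpa [Function.comp_def] using h1
  have hc' : Continuous fun x => χ (-x) := hc.comp continuous_neg
  have hb' : Tendsto (fun x => χ (-x)) atBot atBot := htop.comp tendsto_neg_atBot_atTop
  obtain ⟨x₀, s, hx₀, hs, hL⟩ := expi_left_int hχ hc hbot
  obtain ⟨x₁, s', hx₁, hs', hR⟩ := expi_left_int hχ' hc' hb'
  have hR' : ∀ ρ, -x₁ ≤ ρ → IntegrableOn (fun x => Real.exp (χ x)) (Ici ρ) ∧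
      ∫ x in Ioi ρ, Real.exp (χ x) ≤ 1 / s' * Real.exp (χ ρ) := by
    intro ρ hρ
    obtain ⟨h1, h2⟩ := hR (-ρ) (by linarith)
    constructor
    · have h3 := h1.comp_neg_Ici
      simpa using h3
    · rw [neg_neg] at h2
      have h4 := integral_comp_neg_Iic (-ρ) (fun x => Real.exp (χ x))
      rw [neg_neg] at h4
      rw [← h4]
      exact h2
  have hIL := (hL x₀ le_rfl).1
  have hIR := (hR' (-x₁) le_rfl).1
  have hIM : IntegrableOn (fun x => Real.exp (χ x)) (Icc x₀ (-x₁)) :=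
    hce.continuousOn.integrableOn_compact isCompact_Icc
  have hI : Integrable (fun x => Real.exp (χ x)) := by
    have h1 := (hIL.union hIM).union hIR
    have h2 : Iic x₀ ∪ Icc x₀ (-x₁) ∪ Ici (-x₁) = (univ : Set ℝ) := by
      ext x
      simp only [mem_union, mem_Iic, mem_Icc, mem_Ici, mem_univ, iff_true]
      rcases le_total x x₀ with h | h
      · exact Or.inl (Or.inl h)
      · rcases le_total x (-x₁) with h' | h'
        · exact Or.inl (Or.inr ⟨h, h'⟩)
        · exact Or.inr h'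
    rw [h2] at h1
    rwa [integrableOn_univ] at h1
  refine ⟨hI, Real.tendsto_exp_atBot.comp hbot, Real.tendsto_exp_atBot.comp htop, ?_⟩
  have hne : (Icc x₀ (-x₁)).Nonempty := ⟨x₀, le_rfl, by linarith⟩
  obtain ⟨z, hz, hzmin⟩ := isCompact_Icc.exists_isMinOn hne hce.continuousOn
  set I : ℝ := ∫ x, Real.exp (χ x) with hIdef
  have hI0 : 0 ≤ I := integral_nonneg fun x => (Real.exp_pos _).le
  refine ⟨max (1 / s) (max (1 / s') (I / Real.exp (χ z))), fun ρ => ?_⟩
  rcases le_total ρ x₀ with h | h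
  · left
    refine ((hL ρ h).2).trans (mul_le_mul_of_nonneg_right (le_max_left _ _) (Real.exp_pos _).le)
  rcases le_total (-x₁) ρ with h' | h'
  · right
    refine ((hR' ρ h').2).trans (mul_le_mul_of_nonneg_right ?_ (Real.exp_pos _).le)
    exact (le_max_left _ _).trans (le_max_right _ _)
  · left
    have h1 : ∫ x in Iic ρ, Real.exp (χ x) ≤ I :=
      setIntegral_le_integral hI (Eventually.of_forall fun x => (Real.exp_pos _).le)
    have h2 : Real.exp (χ z) ≤ Real.exp (χ ρ) := hzmin ⟨h, h'⟩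
    calc ∫ x in Iic ρ, Real.exp (χ x) ≤ I := h1
      _ = I / Real.exp (χ z) * Real.exp (χ z) := by
          rw [div_mul_cancel₀ _ (Real.exp_pos _).ne']
      _ ≤ I / Real.exp (χ z) * Real.exp (χ ρ) :=
          mul_le_mul_of_nonneg_left h2 (div_nonneg hI0 (Real.exp_pos _).le)
      _ ≤ _ := mul_le_mul_of_nonneg_right
          ((le_max_right _ _).trans (le_max_right _ _)) (Real.exp_pos _).le

end Pool.Agent.Lib.MP_fa837f_gt.TS.H17
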