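import Pool.Agent.Lib.MP_fa837f_gt.TS.Iface

/-!
# REG (helper17): smoothing with slopes in `[e/2, 1 - e/2]`
-/

set_option autoImplicit false

namespace Pool.Agent.Lib.MP_fa837f_gt.TS.H17

open MeasureTheory Set Filter Topology

/-- the jet of `(1 - e) f + (e / 2) ρ` -/
noncomputable def regJet (J : Jet) (e : ℝ) (he0 : 0 < e) (he1 : e < 1) : Jet where
  f θ ρ := (1 - e) * J.f θ ρ + e / 2 * ρ
  p θ ρ := (1 - e) * J.p θ ρ + e / 2
  a θ ρ := (1 - e) * J.a θ ρ
  P θ ρ := (1 - e) * J.P θ ρ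
  m θ ρ := (1 - e) * J.m θ ρ
  k θ ρ := (1 - e) * J.k θ ρ
  c θ ρ := (1 - e) * J.c θ ρ
  hfp θ ρ := by
    have h1 := ((J.hfp θ ρ).const_mul (1 - e)).fun_add ((hasDerivAt_id' ρ).const_mul (e / 2))
    simpa using h1
  hfa θ ρ := by
    have h1 := ((J.hfa θ ρ).const_mul (1 - e)).add_const (e / 2 * ρ)
    simpa using h1
  hpP θ ρ := by
    have h1 := ((J.hpP θ ρ).const_mul (1 - e)).add_const (e / 2)
    simpa using h1
  hpm θ ρ := by
    have h1 := ((J.hpm θ ρ).const_mul (1 - e)).add_const (e / 2)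
    simpa using h1
  ham θ ρ := (J.ham θ ρ).const_mul (1 - e)
  hak θ ρ := (J.hak θ ρ).const_mul (1 - e)
  hmc θ ρ := (J.hmc θ ρ).const_mul (1 - e)
  hkc θ ρ := (J.hkc θ ρ).const_mul (1 - e)
  cf := (continuous_const.mul J.cf).add (continuous_const.mul continuous_snd)
  cp := (continuous_const.mul J.cp).add continuous_const
  ca := continuous_const.mul J.ca
  cP := continuous_const.mul J.cP
  cm := continuous_const.mul J.cm
  ck := continuous_const.mul J.ck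
  cc := continuous_const.mul J.cc
  bdd := by
    obtain ⟨K, hK⟩ := J.bdd
    refine ⟨K, fun θ ρ => ?_⟩
    obtain ⟨h1, h2, h3, h4, h5⟩ := hK θ ρ
    have h0 : |1 - e| = 1 - e := abs_of_pos (by linarith)
    have key : ∀ y : ℝ, |y| ≤ K → |(1 - e) * y| ≤ K := by
      intro y hy
      rw [abs_mul, h0]
      have hy0 := abs_nonneg y
      nlinarith
    exact ⟨key _ h1, key _ h2, key _ h3, key _ h4, key _ h5⟩
  hP θ ρ := mul_nonneg (by linarith) (J.hP θ ρ)
  hk θ ρ := mul_nonpos_of_nonneg_of_nonpos (by linarith) (J.hk θ ρ)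
  hm θ ρ := by
    have h1 := J.hm θ ρ
    have h2 : ((1 - e) * J.m θ ρ) ^ 2 = (1 - e) ^ 2 * J.m θ ρ ^ 2 := by ring
    have h3 : (1 - e) * J.P θ ρ * -((1 - e) * J.k θ ρ) =
        (1 - e) ^ 2 * (J.P θ ρ * -(J.k θ ρ)) := by ring
    rw [h2, h3]
    exact mul_le_mul_of_nonneg_left h1 (sq_nonneg _)

theorem reg (h1 : MollStatement) : RegStatement := by
  intro φ hφ e he0 he1 δ hδ
  have hpos : 0 < 1 - e := by linarith
  obtain ⟨J, hJ1, hJ2⟩ := h1 φ hφ (δ / (1 - e)) (div_pos hδ hpos)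
  refine ⟨regJet J e he0 he1, fun θ ρ => ?_, fun θ ρ => ?_⟩
  · have h2 := hJ1 θ ρ
    have h3 : (regJet J e he0 he1).f θ ρ - ((1 - e) * φ θ ρ + e / 2 * ρ) =
        (1 - e) * (J.f θ ρ - φ θ ρ) := by
      simp only [regJet]
      ring
    rw [h3, abs_mul, abs_of_pos hpos]
    calc (1 - e) * |J.f θ ρ - φ θ ρ| ≤ (1 - e) * (δ / (1 - e)) :=
          mul_le_mul_of_nonneg_left h2 hpos.le
      _ = δ := by field_simp
  · obtain ⟨h4, h5⟩ := hJ2 θ ρ
    simp only [regJet]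
    constructor
    · have := mul_nonneg hpos.le h4
      linarith
    · have : (1 - e) * J.p θ ρ ≤ (1 - e) * 1 := mul_le_mul_of_nonneg_left h5 hpos.le
      linarith

end Pool.Agent.Lib.MP_fa837f_gt.TS.H17
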